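import Mathlib
import Pool.Agent.KS6_33.BD.Bessel

/-!
# MP_cdfc49_an: the count `4s` fails for every derivative of positive order and every `s`
-/

set_option autoImplicit false

namespace Pool.Agent.Results.MP_cdfc49_an.FailsForEveryOrder

open Complex

/-- The entire function `G_{ν,n}`: the zeros of `J_ν^{(n)}` are the zeros of `G_{ν,n}`. -/
noncomputable def G (ν : ℝ) (n : ℕ) (z : ℂ) : ℂ :=
  ∑' m : ℕ, (((-1) ^ m * (∏ i ∈ Finset.range n, (ν + 2 * m - i)) /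
    (m.factorial * Real.Gamma (ν + m + 1)) : ℝ) : ℂ) * (z / 2) ^ (2 * m)

/-- The set of nonreal zeros of `J_ν^{(n)}`. -/
def nonrealZeros (ν : ℝ) (n : ℕ) : Set ℂ := {z : ℂ | G ν n z = 0 ∧ z.im ≠ 0}

/-- The number of nonreal zeros of `J_ν^{(n)}`, counted with multiplicity (used only when the set of
nonreal zeros is finite). -/
noncomputable def number (ν : ℝ) (n : ℕ) : ℕ :=
  ∑ᶠ z ∈ nonrealZeros ν n, analyticOrderNatAt (G ν n) z

/-- Exactly `N` zeros of `J_ν^{(n)}` lie off the real axis, counted with multiplicity. -/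
def ExactCount (ν : ℝ) (n N : ℕ) : Prop :=
  (nonrealZeros ν n).Finite ∧ number ν n = N

/-- The statement of Q1. -/
def Q1 : Prop :=
  ∀ n s : ℕ, 1 ≤ s → ∀ ν : ℝ, (n : ℝ) - 2 * s - 1 < ν → ν < n - 2 * s →
    ExactCount ν n (4 * s) ∧ ∀ y : ℝ, y ≠ 0 → G ν n (y * I) ≠ 0

/-- For every `n ≥ 1` and every `s ≥ 1` there is `δ > 0` such that for every
`ν ∈ (n - 2s - δ, n - 2s)` the function `J_ν^{(n)}` has at most `4s - 4` nonreal zeros, counted with
multiplicity (for `s = 1`: all zeros are real).  So the count `4s` of Q1 fails for every `n ≥ 1` and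
every `s ≥ 1`, for all `ν` in an interval with right end `n - 2s`; Q1 is false. -/
theorem result :
    (∀ n s : ℕ, 1 ≤ n → 1 ≤ s → ∃ δ > 0, ∀ ν : ℝ, (n : ℝ) - 2 * s - δ < ν → ν < n - 2 * s →
      Differentiable ℂ (G ν n) ∧ G ν n 0 ≠ 0 ∧ (nonrealZeros ν n).Finite ∧
        number ν n ≤ 4 * s - 4 ∧ ¬ ExactCount ν n (4 * s)) ∧
    (∀ n : ℕ, 1 ≤ n → ∃ δ > 0, ∀ ν : ℝ, (n : ℝ) - 2 - δ < ν → ν < n - 2 →
      ∀ z : ℂ, G ν n z = 0 → z.im = 0) ∧
    ¬ Q1 := by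
  have h1 : ∀ n s : ℕ, 1 ≤ n → 1 ≤ s → ∃ δ > 0, ∀ ν : ℝ,
      (n : ℝ) - 2 * s - δ < ν → ν < n - 2 * s →
      Differentiable ℂ (G ν n) ∧ G ν n 0 ≠ 0 ∧ (nonrealZeros ν n).Finite ∧
        number ν n ≤ 4 * s - 4 ∧ ¬ ExactCount ν n (4 * s) := by
    intro n s hn hs
    obtain ⟨δ, hδ, H⟩ := Pool.Agent.KS6_33.BD.main (n := n) (t := 2 * s) hn (by omega)
    refine ⟨δ, hδ, fun ν ha hb => ?_⟩
    obtain ⟨hd, h0, hc⟩ := H ν (by push_cast; linarith) (by push_cast; linarith)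
    have hc' := hc 1 one_ne_zero
    simp only [one_mul] at hc'
    obtain ⟨hfin, hle⟩ := Pool.Agent.KS6_33.BD.finite_count hd h0 hc'
    have hle' : number ν n ≤ 2 * (2 * s - 2) := hle
    refine ⟨hd, h0, hfin, by omega, ?_⟩
    rintro ⟨_, he⟩
    omega
  refine ⟨h1, ?_, ?_⟩
  · intro n hn
    obtain ⟨δ, hδ, H⟩ := Pool.Agent.KS6_33.BD.main (n := n) (t := 2) hn le_rfl
    refine ⟨δ, hδ, fun ν ha hb => ?_⟩
    obtain ⟨hd, h0, hc⟩ := H ν (by push_cast; linarith) (by push_cast; linarith)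
    intro z hz
    by_contra him
    have hc' := hc 1 one_ne_zero {z} (by simpa using him)
    simp only [one_mul, Finset.sum_singleton, Nat.sub_self, mul_zero, Nat.le_zero] at hc'
    have h2 : analyticOrderAt (G ν n) z ≠ 0 := fun h3 =>
      ((hd.analyticAt z).analyticOrderAt_eq_zero.1 h3) hz
    rcases ENat.toNat_eq_zero.1 hc' with h4 | h4
    · exact h2 h4
    · exact Pool.Agent.KS6_33.BD.order_ne_top hd h0 z h4
  · intro hQ
    obtain ⟨δ, hδ, H⟩ := h1 1 1 le_rfl le_rfl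
    have e1 : ((1 : ℕ) : ℝ) - 2 * ((1 : ℕ) : ℝ) = -1 := by push_cast; ring
    have hmin : 0 < min (1 / 2) (δ / 2) := lt_min (by norm_num) (by linarith)
    have hmin1 : min (1 / 2) (δ / 2) ≤ 1 / 2 := min_le_left _ _
    have hmin2 : min (1 / 2) (δ / 2) ≤ δ / 2 := min_le_right _ _
    obtain ⟨_, _, _, _, hne⟩ := H (-1 - min (1 / 2) (δ / 2)) (by rw [e1]; linarith)
      (by rw [e1]; linarith)
    exact hne (hQ 1 1 le_rfl _ (by rw [e1]; linarith) (by rw [e1]; linarith)).1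

end Pool.Agent.Results.MP_cdfc49_an.FailsForEveryOrder
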